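import Pool.Agent.BlMat.ResultDefs
import Pool.Agent.BlMat.MK
import Pool.Agent.BlMat.C1
import Pool.Agent.BlMat.C2
import Pool.Agent.BlMat.C3
import Pool.Agent.BlMat.C4
import Pool.Agent.BlMat.D0
import Pool.Agent.BlMat.D1
import Pool.Agent.BlMat.E1
import Pool.Agent.BlMat.E2
import Pool.Agent.BlMat.E3
import Pool.Agent.BlMat.F1
import Pool.Agent.BlMat.F2
import Pool.Agent.BlMat.F3
import Pool.Agent.BlMat.F4
import Pool.Agent.BlMat.R1
import Pool.Agent.BlMat.T1
import Pool.Agent.BlMat.G1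
import Pool.Agent.BlMat.M1
import Pool.Agent.BlMat.M2
import Pool.Agent.BlMat.M3
import Pool.Agent.BlMat.RT
import Pool.Agent.BlMat.CL
import Pool.Agent.BlMat.CC
import Pool.Agent.BlMat.SA
import Pool.Agent.BlMat.SB
import Pool.Agent.BlMat.SC
import Pool.Agent.BlMat.BA
import Pool.Agent.BlMat.EU
import Pool.Agent.BlMat.ST
import Pool.Agent.BlMat.LM
import Pool.Agent.BlMat.DI
import Pool.Agent.BlMat.GL
import Pool.Agent.BlMat.EQ

set_option autoImplicit false

/-!
# Boundaries of spaces of matings with Blaschke products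

For every degree `n = m + 1 > 1` and every Blaschke product `A = bl a` of degree `n` fixing `0`
(marked by the fixed point `1` on the circle), the map `F : f(z^n, B) ↦ f(A, B)` extends to a
homeomorphism of the boundaries modulo quasiconformal conjugacy.
-/

namespace Pool.Agent.Results.MP_c3607d_an.NaturalBoundary

open Pool.Agent.BlMat

theorem result :
    ∀ (m : ℕ), 1 ≤ m → ∀ a ∈ Par m,
      (∀ b ∈ Par m, ∃! x : SpB a, IsMate a b x) ∧ Equivalence (BQ a) ∧ Equivalence (ClRel a) ∧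
      ∃ (F : SpB (pz m) ≃ₜ SpB a) (Φ : SpD (pz m) ≃ₜ SpD a) (Ψ : SpC (pz m) ≃ₜ SpC a),
        (∀ b ∈ Par m, ∀ x, IsMate (pz m) b x ↔ IsMate a b (F x)) ∧
        (∀ x, Ψ (inB (pz m) x) = inB a (F x)) ∧ (∀ y, Ψ (inD (pz m) y) = inD a (Φ y)) := by
  have hCau := cauchy
  have hNeu := neumann hCau cauchyBound (isometry hCau)
  have hMRT := mrt hCau hNeu
  have hLA := lengthArea qcGroup
  have hUB := unifBound
  have hQSC := qsCompact qs hUB
  have hBl := bl_facts
  have hRat := rat hBl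
  have hCls := cls hBl
  have hUC := unifCompact hUB
  have hUV := unifConv hUB
  have hQN := qCircleNull qs qsGroup
  have hSA := surgA hMRT hUB hBl
  have hSB := surgB hSA hLA qcGroup hQSC removable hQN qsGroup hBl
  have hSC := surgery hSB hRat hCls hBl qsGroup contConv
  have hMod := model (halfModel strip hBl) hBl
  have hEU := mateEU hSC (base hBl) hMod removable qcGroup hQN hCls hBl
  have hCC := clsCompact hBl hRat hUC hUV
  have hSl := sliceCl hBl hRat hCls hUC hUV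
  have hSt := stab hCls hBl sphereTop
  have hLM := limit hSC hEU hCC hUV hQSC hCls hSt hBl sphereTop qsGroup
  have hGL := glue (koebe hUB) qs qsGroup (disp hBl) hBl hUB
  have hEq := bdEquiv hCls qsGroup
  have hMK := qcc hBl hCls
  intro m hm a ha
  have h0 := zero_mem_Par m
  have hH := homeoStmt_all (m := m) hMod (fun a ha a' ha' ⟨k, r, g, ψ, ψs, hm'⟩ =>
    Loc.homeoStmt_of_model sphereTop hLM hGL hCls qsGroup hBl hEU hSl hm ha ha' hm') hm a ha
  have hE := hEq m hm a ha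
  refine ⟨?_, ?_, ?_, transport' (a := pz m) hMK hm h0 ha hH⟩
  · intro b hb
    obtain ⟨⟨f, φ, χ, hf, hd⟩, -⟩ := hEU m hm a ha b hb
    obtain ⟨g, rfl⟩ := Loc.exists_ratMap hf
    refine ⟨(⟨g, b, hb, hf, φ, χ, hd⟩ : Slice a), ⟨hf, φ, χ, hd⟩, ?_⟩
    intro g' hg'
    exact Subtype.ext (Loc.mate_unique hEU hm ha hb hg' ⟨hf, φ, χ, hd⟩)
  · rw [BQ_eq hMK hm ha]
    constructor
    · intro x
      obtain ⟨φ, hφ⟩ := (hSl m hm a ha).2 x.1 x.2.1
      exact Loc.qcConj_refl hφ
    · intro x y hxy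
      have h1 : BdRel a ⟨x.1, x.2.1⟩ ⟨y.1, y.2.1⟩ := Or.inr ⟨x.2.2, y.2.2, hxy⟩
      rcases hE.symm h1 with h | h
      · have e : y = x := Subtype.ext (congrArg (fun t : SliceCl a => t.1) h)
        subst e; exact hxy
      · exact h.2.2
    · intro x y z hxy hyz
      have h1 : BdRel a ⟨x.1, x.2.1⟩ ⟨y.1, y.2.1⟩ := Or.inr ⟨x.2.2, y.2.2, hxy⟩
      have h2 : BdRel a ⟨y.1, y.2.1⟩ ⟨z.1, z.2.1⟩ := Or.inr ⟨y.2.2, z.2.2, hyz⟩
      rcases hE.trans h1 h2 with h | h
      · have e : x = z := Subtype.ext (congrArg (fun t : SliceCl a => t.1) h)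
        subst e
        obtain ⟨φ, hφ⟩ := (hSl m hm a ha).2 x.1 x.2.1
        exact Loc.qcConj_refl hφ
      · exact h.2.2
  · rw [ClRel_eq hMK hm ha]; exact hE

end Pool.Agent.Results.MP_c3607d_an.NaturalBoundary
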